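import Pool.Agent.Q43.Cyc.RegVar

set_option autoImplicit false

namespace Pool.Agent.Results.MP_dca572_nt.CyclicPairs

open Filter Topology

/-- A positive integer `m` is cyclic if `gcd(m, φ(m)) = 1`. -/
def Cyclic (m : ℕ) : Prop := 0 < m ∧ Nat.gcd m (Nat.totient m) = 1

/-- The cyclic numbers in increasing order, `c 0 < c 1 < ...`. -/
noncomputable def c (j : ℕ) : ℕ := Nat.nth Cyclic j

/-- The number of pairs of consecutive cyclic numbers between `n ^ 3` and `(n + 1) ^ 3` with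
difference `g`. -/
noncomputable def T (g n : ℕ) : ℕ :=
  {j : ℕ | n ^ 3 < c j ∧ c (j + 1) < (n + 1) ^ 3 ∧ c (j + 1) - c j = g}.ncard

/-- `f` (a positive sequence indexed by `n ≥ 1`) is regularly varying with index `ρ`. -/
def RegularlyVarying (f : ℕ → ℝ) (ρ : ℝ) : Prop :=
  (∀ n : ℕ, 1 ≤ n → 0 < f n) ∧
    ∀ t : ℝ, 0 < t → Tendsto (fun n : ℕ => f ⌊t * n⌋₊ / f n) atTop (𝓝 (t ^ ρ))

/-- **Q1**, with the common index `2`. -/
theorem result : ∀ g : ℕ, g = 2 ∨ g = 4 ∨ g = 6 → ∃ (f : ℕ → ℝ) (ρ : ℝ), 1 ≤ ρ ∧ ρ ≤ 5 / 2 ∧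
    RegularlyVarying f ρ ∧ Tendsto (fun n : ℕ => (T g n : ℝ) / f n) atTop (𝓝 1) := by
  intro g hg
  have hg2 : 2 ∣ g := by rcases hg with rfl | rfl | rfl <;> norm_num
  have hg0 : 0 < g := by omega
  refine ⟨Pool.Agent.Q43.Cyc.ff g, 2, by norm_num, by norm_num, ⟨?_, ?_⟩, ?_⟩
  · intro n hn
    have hn0 : (0 : ℝ) < n := by exact_mod_cast (by omega : 0 < n)
    have := Pool.Agent.Q43.Cyc.V_pos g hg2 ⌊Real.log (Real.log (n : ℝ))⌋₊
    unfold Pool.Agent.Q43.Cyc.ff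
    positivity
  · intro t ht
    exact Pool.Agent.Q43.Cyc.regvar g hg2 t ht
  · refine (Pool.Agent.Q43.Cyc.main_tendsto g hg).congr fun n => ?_
    rw [← Pool.Agent.Q43.Cyc.ncard_pairs g n hg0]
    rfl

end Pool.Agent.Results.MP_dca572_nt.CyclicPairs
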